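import Pool.Agent.Lib.MP_ac744f_co.Main

/-!
A connected finite poset with `n` elements and more than `(n - 1)!` tangled labelings.
-/

set_option autoImplicit false

namespace Pool.Agent.Results.MP_ac744f_co.Counterexample

open Pool.Agent.Lib.MP_ac744f_co

theorem result : ∃ (P : Type) (_ : Fintype P) (_ : PartialOrder P),
    1 ≤ Fintype.card P ∧
    (∀ p q : P, Relation.ReflTransGen (fun a b => a ≤ b ∨ b ≤ a) p q) ∧
    (Fintype.card P - 1).factorial < {L : P → ℕ | IsLabeling L ∧ Tangled L}.ncard := by
  obtain ⟨k, K, r, M, j, h1, h2⟩ := counterexample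
  exact ⟨El 30 (k + 1) K r M j, inferInstance, inferInstance, h1, conn, h2⟩

end Pool.Agent.Results.MP_ac744f_co.Counterexample
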